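import Pool.Agent.Lib.MP_ab0b07_gt.KN4

/-!
# The level sets of the signature in the Gordian graph
-/

namespace Pool.Agent.Results.MP_ab0b07_gt.LevelSets

open MPab0b07

/-- Two knots with the same signature and with Gordian distance `n` are joined by a walk in the
Gordian graph which has at most `4 * n` edges and visits only knots of the same signature. -/
theorem result (K L : Knot) (h : sigma K = sigma L) :
    ∃ p : Gordian.Walk K L, p.length ≤ 4 * Gordian.dist K L ∧
      ∀ M ∈ p.support, sigma M = sigma K :=
  lvN_dist h

end Pool.Agent.Results.MP_ab0b07_gt.LevelSets
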