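import Pool.Agent.Lib.MP_ab0b07_gt.KN4

/-!
# Automorphisms of the Gordian graph which are close to the identity or the mirror map
-/

namespace Pool.Agent.Results.MP_ab0b07_gt.MirrorRigidity

open MPab0b07

/-- Let `φ` be an automorphism of the Gordian graph such that, for every knot `K`, the knot `φ K`
has Gordian distance at most `C` from `K` or from its mirror image.  Then `φ K` has distance at
most `C` from `K` for all knots `K` with `2 * C < |sigma K|`, or `φ K` has distance at most `C` from
the mirror image of `K` for all these knots. -/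
theorem result (φ : Gordian ≃g Gordian) (C : ℕ)
    (h : ∀ K : Knot, Gordian.dist (φ K) K ≤ C ∨ Gordian.dist (φ K) (mirror K) ≤ C) :
    (∀ K : Knot, 2 * (C : ℤ) < |sigma K| → Gordian.dist (φ K) K ≤ C) ∨
      (∀ K : Knot, 2 * (C : ℤ) < |sigma K| → Gordian.dist (φ K) (mirror K) ≤ C) := by
  have key : ∀ K : Knot, 2 * (C : ℤ) < |sigma K| → (C : ℤ) < |ht K| := by
    intro K hK
    rw [← two_mul_ht, abs_mul, abs_two] at hK
    linarith
  rcases hgraph.pm_coarse gordian_connected φ C h with h1 | h1
  · exact Or.inl fun K hK => h1 K (key K hK)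
  · exact Or.inr fun K hK => h1 K (key K hK)

end Pool.Agent.Results.MP_ab0b07_gt.MirrorRigidity
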