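import Pool.Agent.Lib.MP_ab0b07_gt.KN4

/-!
# Automorphisms of the Gordian graph and the signature
-/

namespace Pool.Agent.Results.MP_ab0b07_gt.SignatureRigidity

open MPab0b07

/-- Let `φ` be an automorphism of the Gordian graph and let `k` be an integer.

If `sigma (φ K)` lies between `a` and `b` for all knots `K` of signature `2 * k` then, for a sign
`ε`, `sigma (φ K) - ε * (sigma K - 2 * k)` lies between `a` and `b` for all knots `K`.

If the residue modulo `N` of `sigma (φ K)` is the same for all knots `K` of signature `2 * k`, where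
`3 ≤ N`, then `sigma (φ K) = ε * sigma K + c` for all knots `K`, with a sign `ε` and a constant
`c`. -/
theorem result (φ : Gordian ≃g Gordian) (k : ℤ) :
    (∀ a b : ℤ, (∀ K : Knot, sigma K = 2 * k → a ≤ sigma (φ K) ∧ sigma (φ K) ≤ b) →
      ∃ ε : ℤ, (ε = 1 ∨ ε = -1) ∧ ∀ K : Knot,
        a ≤ sigma (φ K) - ε * (sigma K - 2 * k) ∧
          sigma (φ K) - ε * (sigma K - 2 * k) ≤ b) ∧
    (∀ N : ℤ, 3 ≤ N →
      (∀ K L : Knot, sigma K = 2 * k → sigma L = 2 * k → N ∣ sigma (φ K) - sigma (φ L)) →
      ∃ ε c : ℤ, (ε = 1 ∨ ε = -1) ∧ ∀ K : Knot, sigma (φ K) = ε * sigma K + c) := by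
  constructor
  · intro a b hab
    obtain ⟨ε, hε, h⟩ := hgraph.coarse φ k (-((-a) / 2)) (b / 2) (fun K hK => by
      have h1 := two_mul_ht K
      have h2 := two_mul_ht (φ K)
      have h3 := hab K (by omega)
      omega)
    refine ⟨ε, hε, fun K => ?_⟩
    have h1 := two_mul_ht K
    have h2 := two_mul_ht (φ K)
    have h3 := h K
    rcases hε with rfl | rfl <;> omega
  · intro N hN hφ
    obtain ⟨ε, c, hε, h⟩ := hgraph.const_level φ k (fun x y hx hy hxy => by
      have h1 := two_mul_ht x
      have h2 := two_mul_ht y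
      have h3 := two_mul_ht (φ x)
      have h4 := two_mul_ht (φ y)
      have h5 := sigma_adj (φ.map_adj_iff.mpr hxy)
      have h6 := hφ x y (by omega) (by omega)
      have h7 : sigma (φ x) - sigma (φ y) = 0 :=
        Int.eq_zero_of_abs_lt_dvd h6 (lt_of_le_of_lt h5 (by omega))
      omega)
    refine ⟨ε, 2 * c, hε, fun K => ?_⟩
    have h1 := two_mul_ht K
    have h2 := two_mul_ht (φ K)
    have h3 := h K
    rcases hε with rfl | rfl <;> omega

end Pool.Agent.Results.MP_ab0b07_gt.SignatureRigidity
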